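import Pool.Agent.CatW.Main

/-!
# The last `sqrt n` terms of `s_(n,k)` and `c_(n,k)`

`Pool.Agent.Hhelper51.Cat.c n k` is the minimum, over all pairs of caterpillars on `n` leaves, of
the number of partitions with `k` classes which are convex on both; `Pool.Agent.CatU.s n k` is the
same minimum over all pairs of phylogenetic trees. For the terms with `k = n - r`, `r ≤ sqrt n`, we
prove bounds `(c n ^ 2 / r ^ 3) ^ r` from below and from above, and draw two consequences: coarse
monotonicity of the last `sqrt n` terms, and the comparison with the binomial coefficient.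
-/

set_option autoImplicit false

open Pool.Agent.Hhelper51.Cat Pool.Agent.CatU

namespace Pool.Agent.Results.MP_7af81b_co.LastSqrtTerms

theorem result (n : ℕ) (hn3 : 3 ≤ n) (x : ℕ → ℕ) (hx : x = s n ∨ x = c n) :
    (∀ r : ℕ, 1 ≤ r → 324 * r ^ 2 ≤ n →
      ((n : ℝ) ^ 2 / (1296 * (r : ℝ) ^ 3)) ^ r ≤ (x (n - r) : ℝ)) ∧
    (∀ r : ℕ, 1 ≤ r → r ^ 2 ≤ n →
      (x (n - r) : ℝ) ≤ (800 * (n : ℝ) ^ 2 / (r : ℝ) ^ 3) ^ r) ∧
    (10 ^ 10 ≤ n →
      (∀ k l : ℕ, n < 2 * k → k < l → l < n → (n - l) ^ 2 ≤ n →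
        60 * ((n : ℝ) - l) ≤ ((l : ℝ) - k) * Real.log n → x l ≤ x k) ∧
      (∀ k : ℕ, k + 2 ≤ n → 5184 * (n - k) ^ 2 ≤ n → n.choose (k - 1) < x k)) := by
  have hb := Pool.Agent.CatW.bds hn3 x hx
  refine ⟨?_, hb.up, fun hn => ⟨?_, ?_⟩⟩
  · intro r hr h
    refine le_trans ?_ (hb.low r hr h)
    have hr0 : (0 : ℝ) < r := by exact_mod_cast hr
    have hf : (r.factorial : ℝ) ≤ (r : ℝ) ^ r := by exact_mod_cast Nat.factorial_le_pow r
    have hf0 : (0 : ℝ) < (r.factorial : ℝ) := by exact_mod_cast Nat.factorial_pos r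
    rw [le_div_iff₀ hf0]
    have e1 : ((n : ℝ) ^ 2 / (1296 * (r : ℝ) ^ 2)) ^ r =
        ((n : ℝ) ^ 2 / (1296 * (r : ℝ) ^ 3)) ^ r * (r : ℝ) ^ r := by
      rw [← mul_pow]
      congr 1
      field_simp
    rw [e1]
    exact mul_le_mul_of_nonneg_left hf (by positivity)
  · intro k l h1 h2 h3 h4 h5
    have h6 : n - (n - l) = l := by omega
    have h7 : n - (n - k) = k := by omega
    have h8 : ((n - l : ℕ) : ℝ) = (n : ℝ) - l := by rw [Nat.cast_sub h3.le]
    have h9 : ((n - k : ℕ) : ℝ) = (n : ℝ) - k := by rw [Nat.cast_sub (by omega)]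
    have h10 := Pool.Agent.CatW.far_mono hb hn (n - l) (n - k) (by omega) h4 (by omega)
      (by omega) (by
        rw [h8, h9]
        have : (n : ℝ) - k - ((n : ℝ) - l) = (l : ℝ) - k := by ring
        rw [this]
        exact h5)
    rw [h6, h7] at h10
    exact h10
  · intro k h1 h2
    have h3 := Pool.Agent.CatW.choose_lt hb (by omega) (n - k) (by omega) h2
    have h4 : n - (n - k) = k := by omega
    rw [h4] at h3
    have hk1 : 1 ≤ k := by
      by_contra hcon
      have hk0 : k = 0 := by omega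
      subst hk0
      rw [Nat.sub_zero] at h2
      nlinarith
    have h5 : n.choose (k - 1) = n.choose (n - k + 1) := by
      have e1 : n - k + 1 = n - (k - 1) := by omega
      rw [e1, Nat.choose_symm (by omega)]
    rw [h5]
    exact h3

end Pool.Agent.Results.MP_7af81b_co.LastSqrtTerms
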