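import Pool.Agent.Hhelper51.Cat.Defs
import Pool.Agent.Hhelper51.Cat.Final1
import Pool.Agent.Hhelper51.Cat.FirstMoment
import Pool.Agent.Hhelper51.Cat.UpperAsymp
import Pool.Agent.Hhelper51.Cat.Numeric1
import Pool.Agent.Hhelper51.Cat.Numeric2
import Pool.Agent.Hhelper51.Cat.Core13

/-!
# The sequence of minimum common convex partition counts of caterpillars is not log-concave

`c n k` (defined in `Pool.Agent.Hhelper51.Cat.Defs`) is the minimum, over all pairs of caterpillars
on `n` leaves, of the number of partitions with `k` classes which are convex on both caterpillars.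
We show that for infinitely many `n` the (positive) sequence `c n 1, …, c n n` is not log-concave.

Outline.  Put `n = N ^ 2`.  For every pair of caterpillars, the partitions with `n - x N` classes
all of whose nontrivial classes are pairs number at least `exp (x N log N + (V - o(1)) N)`, where
`x = 131/500` and `V` is an explicit constant (a many-scale block construction, `lower_bound`),
the partitions with one nontrivial class give
`c n (n - y N) ≥ exp (y N log N + (y - y log y - o(1)) N)`, and a first moment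
computation shows that the latter is sharp for `y = 481/500`. Combining the values at
`x = 131/500`, `y = 481/500` and `98/100` contradicts log-concavity.
-/

set_option autoImplicit false

open Pool.Agent.Hhelper51.Cat

namespace Pool.Agent.Results.MP_7af81b_co.NotLogConcave

open Finset

lemma c_pos {n : ℕ} (hn : 3 ≤ n) (k : ℕ) (h1 : 1 ≤ k) (hk : k ≤ n) : 0 < c n k := by
  rcases Nat.lt_or_ge k n with hlt | hge
  · have h := c_ge hn k (n.choose (n - k + 1)) (fun π ρ => by
      have := common_ge_choose π ρ (n - k) (by omega)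
      have e : n - (n - k) = k := by omega
      rwa [e] at this)
    exact lt_of_lt_of_le (Nat.choose_pos (by omega)) h
  · have e : k = n := le_antisymm hk hge
    subst e
    have h2 : ∀ A ∈ (∅ : Finset (Finset (Fin k))), 2 ≤ A.card := by
      intro A hA; simp at hA
    have hd : ∀ A ∈ (∅ : Finset (Finset (Fin k))), ∀ B ∈ (∅ : Finset (Finset (Fin k))),
        A ≠ B → Disjoint A B := by
      intro A hA; simp at hA
    have hs : ∀ π : Equiv.Perm (Fin k), ∀ A ∈ (∅ : Finset (Finset (Fin k))),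
        ∀ B ∈ (∅ : Finset (Finset (Fin k))), A ≠ B → Before π A B ∨ Before π B A := by
      intro π A hA; simp at hA
    apply c_ge hn k 1
    intro π ρ
    rw [Nat.one_le_iff_ne_zero, ← Nat.pos_iff_ne_zero, card_pos]
    refine ⟨complete ∅ h2 hd, ?_⟩
    rw [mem_common]
    refine ⟨?_, complete_intDisj π ∅ h2 hd (hs π), complete_intDisj ρ ∅ h2 hd (hs ρ)⟩
    have := complete_card (n := k) ∅ h2 hd
    rw [sum_empty, card_empty] at this
    omega

theorem result : ∀ n₀ : ℕ, ∃ n : ℕ, n₀ ≤ n ∧ 3 ≤ n ∧ (∀ k, 1 ≤ k → k ≤ n → 0 < c n k) ∧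
    ∃ k : ℕ, 1 < k ∧ k < n ∧ c n k ^ 2 < c n (k - 1) * c n (k + 1) := by
  intro n₀
  set δ : ℝ := ((98/100 - 481/500) * VV +
      (481/500 - 131/500) * (98/100 - 98/100 * Real.log (98/100))) -
      (98/100 - 131/500 : ℝ) * (481/500 - 481/500 * Real.log (481/500)) with hδ
  have hδpos : 0 < δ := by have := final_numeric; rw [hδ]; linarith
  set ε : ℝ := δ / 4 with hε
  have hεpos : 0 < ε := by rw [hε]; linarith
  obtain ⟨L, hL1, N1, hlow⟩ := lower_bound ε hεpos
  obtain ⟨N2, hup⟩ := upper_asymp (481/500) (by norm_num) (by norm_num) y_cond ε hεpos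
  obtain ⟨N3, hch⟩ := choose_lower (98/100) ε (by norm_num) (by norm_num) hεpos
  -- the choice of `N`
  set M : ℕ := N1 + N2 + N3 + n₀ + 1 with hM
  set N : ℕ := 500 * (L * M) with hN
  have hLM : M ≤ L * M := Nat.le_mul_of_pos_left _ (by omega)
  have hNM : M ≤ N := by rw [hN]; omega
  have hN500 : 500 ≤ N := by rw [hN]; omega
  have hLN : L ∣ N := ⟨500 * M, by rw [hN]; ring⟩
  have hNsq : N ≤ N ^ 2 := by nlinarith
  have hn3 : 3 ≤ N ^ 2 := by omega
  refine ⟨N ^ 2, by omega, hn3, fun k h1 h2 => c_pos hn3 k h1 h2, ?_⟩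
  by_contra hcon
  push Not at hcon
  -- the three places
  set r0 : ℕ := 131 * (L * M) with hr0
  set r1 : ℕ := 481 * (L * M) with hr1
  set r2 : ℕ := 490 * (L * M) with hr2
  have hNR : (N : ℝ) = 500 * ((L * M : ℕ) : ℝ) := by rw [hN]; push_cast; ring
  have e0 : (r0 : ℝ) = 131 / 500 * N := by rw [hNR, hr0]; push_cast; ring
  have e1 : (r1 : ℝ) = 481 / 500 * N := by rw [hNR, hr1]; push_cast; ring
  have e2 : (r2 : ℝ) = 98 / 100 * N := by rw [hNR, hr2]; push_cast; ring
  have hlow' := hlow N (by omega) hLN r0 e0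
  have hup' := hup N (by omega) r1 e1
  have hch' := hch N (by omega) r2 e2
  -- the lower bounds
  have hA0 : Real.exp (r0 * Real.log N + N * (VV - ε)) ≤ (c (N ^ 2) (N ^ 2 - r0) : ℝ) := by
    obtain ⟨π, ρ, hπρ⟩ : ∃ π ρ : Equiv.Perm (Fin (N ^ 2)), ∀ π' ρ' : Equiv.Perm (Fin (N ^ 2)),
        (common π ρ (N ^ 2 - r0)).card ≤ (common π' ρ' (N ^ 2 - r0)).card := by
      obtain ⟨p, -, hp⟩ := exists_min_image
        (univ : Finset (Equiv.Perm (Fin (N ^ 2)) × Equiv.Perm (Fin (N ^ 2))))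
        (fun p => (common p.1 p.2 (N ^ 2 - r0)).card) ⟨(1, 1), mem_univ _⟩
      exact ⟨p.1, p.2, fun π' ρ' => hp (π', ρ') (mem_univ _)⟩
    have h1 := c_ge hn3 (N ^ 2 - r0) _ hπρ
    have h2 := common_ge_pairFam π ρ r0
    have h3 := hlow' (π.symm.trans ρ)
    refine h3.trans ?_
    exact_mod_cast h2.trans h1
  have hA2 : Real.exp (r2 * Real.log N + N * (98/100 - 98/100 * Real.log (98/100) - ε)) ≤
      (c (N ^ 2) (N ^ 2 - r2) : ℝ) := by
    refine hch'.trans ?_
    have := c_ge hn3 (N ^ 2 - r2) _ (fun π ρ => common_ge_choose π ρ r2 (by omega))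
    exact_mod_cast this
  -- the upper bound
  have hA1 : (c (N ^ 2) (N ^ 2 - r1) : ℝ) ≤
      Real.exp (r1 * Real.log N + N * (481/500 - 481/500 * Real.log (481/500) + ε)) := by
    obtain ⟨σ, hσ⟩ := first_moment (n := N ^ 2) (r := r1) (by omega) (by omega)
    have h1 : (c (N ^ 2) (N ^ 2 - r1) : ℝ) ≤ ((common 1 σ (N ^ 2 - r1)).card : ℝ) := by
      exact_mod_cast c_le hn3 σ (N ^ 2 - r1)
    exact h1.trans (hσ.trans hup')
  -- log-concavity
  have hlc := logconcave_three (fun k => (c (N ^ 2) k : ℝ)) (N ^ 2)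
    (fun k h1 h2 => by exact_mod_cast c_pos hn3 k h1 h2)
    (fun k h1 h2 => by exact_mod_cast hcon k h1 h2)
    (N ^ 2 - r2) (N ^ 2 - r1) (N ^ 2 - r0) (by omega) (by omega) (by omega) (by omega)
  have c2 : ((N ^ 2 - r2 : ℕ) : ℝ) = (N : ℝ) ^ 2 - r2 := by
    rw [Nat.cast_sub (by omega)]; push_cast; ring
  have c1 : ((N ^ 2 - r1 : ℕ) : ℝ) = (N : ℝ) ^ 2 - r1 := by
    rw [Nat.cast_sub (by omega)]; push_cast; ring
  have c0 : ((N ^ 2 - r0 : ℕ) : ℝ) = (N : ℝ) ^ 2 - r0 := by
    rw [Nat.cast_sub (by omega)]; push_cast; ring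
  rw [c2, c1, c0] at hlc
  have l0 : r0 * Real.log N + N * (VV - ε) ≤ Real.log (c (N ^ 2) (N ^ 2 - r0) : ℝ) := by
    have := Real.log_le_log (Real.exp_pos _) hA0
    rwa [Real.log_exp] at this
  have l2 : r2 * Real.log N + N * (98/100 - 98/100 * Real.log (98/100) - ε) ≤
      Real.log (c (N ^ 2) (N ^ 2 - r2) : ℝ) := by
    have := Real.log_le_log (Real.exp_pos _) hA2
    rwa [Real.log_exp] at this
  have hpos1 : (0 : ℝ) < (c (N ^ 2) (N ^ 2 - r1) : ℝ) := by
    exact_mod_cast c_pos hn3 (N ^ 2 - r1) (by omega) (by omega)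
  have l1 : Real.log (c (N ^ 2) (N ^ 2 - r1) : ℝ) ≤
      r1 * Real.log N + N * (481/500 - 481/500 * Real.log (481/500) + ε) := by
    have := Real.log_le_log hpos1 hA1
    rwa [Real.log_exp] at this
  have hNpos : (0 : ℝ) < N := by
    have : 0 < N := by omega
    exact_mod_cast this
  generalize Real.log (c (N ^ 2) (N ^ 2 - r0) : ℝ) = a0 at *
  generalize Real.log (c (N ^ 2) (N ^ 2 - r1) : ℝ) = a1 at *
  generalize Real.log (c (N ^ 2) (N ^ 2 - r2) : ℝ) = a2 at *
  generalize Real.log (N : ℝ) = lN at *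
  have f01 : (N : ℝ) ^ 2 - r0 - ((N : ℝ) ^ 2 - r1) = 350 / 500 * N := by rw [e0, e1]; ring
  have f12 : (N : ℝ) ^ 2 - r1 - ((N : ℝ) ^ 2 - r2) = 9 / 500 * N := by rw [e1, e2]; ring
  have f02 : (N : ℝ) ^ 2 - r0 - ((N : ℝ) ^ 2 - r2) = 359 / 500 * N := by rw [e0, e2]; ring
  rw [f01, f12, f02] at hlc
  rw [e0] at l0
  rw [e1] at l1
  rw [e2] at l2
  have g0 := mul_le_mul_of_nonneg_left l0 (show (0 : ℝ) ≤ 9 / 500 * N by positivity)
  have g1 := mul_le_mul_of_nonneg_left l1 (show (0 : ℝ) ≤ 359 / 500 * N by positivity)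
  have g2 := mul_le_mul_of_nonneg_left l2 (show (0 : ℝ) ≤ 350 / 500 * N by positivity)
  have key : (N : ℝ) ^ 2 * (δ - 2 * (359 / 500) * ε) ≤ 0 := by
    rw [hδ]
    nlinarith [g0, g1, g2, hlc]
  have hN2 : (0 : ℝ) < (N : ℝ) ^ 2 := by positivity
  have : 0 < δ - 2 * (359 / 500) * ε := by rw [hε]; linarith
  have := mul_pos hN2 this
  linarith

end Pool.Agent.Results.MP_7af81b_co.NotLogConcave
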