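import Pool.Agent.CatW.FmMain

/-!
# For every pair of trees the last terms are non-increasing

`Pool.Agent.Hhelper51.Cat.PhyloTree.commonCount T F k` is the number of partitions with exactly `k`
classes which are convex on `T` and on `F`; `Pool.Agent.CatU.s n k` is its minimum over all pairs of
phylogenetic trees and `Pool.Agent.Hhelper51.Cat.c n k` the minimum over all pairs of caterpillars.
For `n - k` at most a constant times `n ^ (2 / 15)` the number for `k + 1` is at most the number for
`k`, for every pair of trees.
-/

set_option autoImplicit false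

open Pool.Agent.Hhelper51.Cat Pool.Agent.CatU

namespace Pool.Agent.Results.MP_7af81b_co.PairMonotone

theorem result (n k : ℕ) (hn : 3 ≤ n) (hk : k < n) (h : 10 ^ 16 * (n - k) ^ 15 ≤ n ^ 2) :
    (∀ T F : PhyloTree n, T.commonCount F (k + 1) ≤ T.commonCount F k) ∧
    s n (k + 1) ≤ s n k ∧ c n (k + 1) ≤ c n k :=
  ⟨fun T F => Pool.Agent.CatW.pair_mono' hn T F k hk h,
    Pool.Agent.CatW.both_mono hn (Or.inl rfl) k hk h,
    Pool.Agent.CatW.both_mono hn (Or.inr rfl) k hk h⟩

end Pool.Agent.Results.MP_7af81b_co.PairMonotone
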