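import Pool.Agent.CatU.Mono

/-!
# Unimodality of `s_(n,k)` and `c_(n,k)` for `k ≤ n - sqrt n`

`Pool.Agent.Hhelper51.Cat.c n k` is the minimum, over all pairs of caterpillars on `n` leaves, of
the number of partitions with `k` classes which are convex on both; `Pool.Agent.CatU.s n k` is the
same minimum over all pairs of phylogenetic trees. For all large `n` both sequences are unimodal
on `1 ≤ k ≤ n - sqrt n`, with the maximum in the middle.
-/

set_option autoImplicit false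

open Pool.Agent.Hhelper51.Cat Pool.Agent.CatU

namespace Pool.Agent.Results.MP_7af81b_co.UnimodalRange

/-- The sequence `x 1, …, x K` is unimodal: for some `m` it is non-decreasing for `k ≤ m` and
non-increasing for `k ≥ m`. -/
def UnimodalUpTo (K : ℕ) (x : ℕ → ℕ) : Prop :=
  ∃ m : ℕ, (∀ k, 1 ≤ k → k < m → k < K → x k ≤ x (k + 1)) ∧
    (∀ k, 1 ≤ k → m ≤ k → k < K → x (k + 1) ≤ x k)

theorem result : ∃ n₀ : ℕ, ∀ n : ℕ, n₀ ≤ n → ∀ x : ℕ → ℕ, x = s n ∨ x = c n →
    (∀ K : ℕ, K < n → n ≤ (n - K) ^ 2 → UnimodalUpTo K x) ∧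
    (∀ k : ℕ, 1 ≤ k → 2 * k ≤ n → x k ≤ x (k + 1)) ∧
    (∀ k : ℕ, n + 2 ≤ 2 * k → k + 1 < n → n ≤ (n - (k + 1)) ^ 2 → x (k + 1) ≤ x k) ∧
    (∀ k : ℕ, 1 ≤ k → k < n → n ≤ (n - k) ^ 2 →
      (n.choose (k - 1) : ℝ) ≤ x k ∧
      (x k : ℝ) ≤ (1 + 308 / ((n : ℝ) - k)) * (n.choose (k - 1) : ℝ)) := by
  obtain ⟨m0, hm0⟩ := c_upper
  refine ⟨3000 + m0 ^ 2 + 2 * m0, fun n hn x hx => ?_⟩
  have hn3 : 3 ≤ n := by omega
  have hbd : Bd n m0 x := by
    rcases hx with rfl | rfl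
    · refine ⟨fun r hr => choose_le_s hn3 r hr, fun r h1 h2 h3 => ?_⟩
      refine le_trans ?_ (hm0 r h1 n hn3 h2 h3)
      exact_mod_cast s_le_c hn3 (n - r)
    · refine ⟨fun r hr => (choose_le_s hn3 r hr).trans (s_le_c hn3 _), fun r h1 h2 h3 => ?_⟩
      exact hm0 r h1 n hn3 h2 h3
  have hinc : ∀ k : ℕ, 1 ≤ k → 2 * k ≤ n → x k ≤ x (k + 1) := fun k h1 h2 =>
    incr hbd (by omega) (by omega) h1 h2
  have hdec : ∀ k : ℕ, n + 2 ≤ 2 * k → k + 1 < n → n ≤ (n - (k + 1)) ^ 2 → x (k + 1) ≤ x k :=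
    fun k h1 h2 h3 => decr hbd (by omega) (by omega) h1 (by omega) h3
  refine ⟨?_, hinc, hdec, ?_⟩
  · intro K hK hKn
    have hw : ∀ k, k < K → n ≤ (n - (k + 1)) ^ 2 := fun k hk =>
      hKn.trans (Nat.pow_le_pow_left (by omega) 2)
    rcases le_total (x (n / 2 + 1)) (x (n / 2 + 1 + 1)) with h | h
    · refine ⟨n / 2 + 2, fun k h1 h2 h3 => ?_, fun k h1 h2 h3 => ?_⟩
      · rcases Nat.lt_or_ge (n / 2) k with h4 | h4
        · have : k = n / 2 + 1 := by omega
          rw [this]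
          exact h
        · exact hinc k h1 (by omega)
      · exact hdec k (by omega) (by omega) (hw k h3)
    · refine ⟨n / 2 + 1, fun k h1 h2 h3 => hinc k h1 (by omega), fun k h1 h2 h3 => ?_⟩
      rcases Nat.lt_or_ge k (n / 2 + 2) with h4 | h4
      · have : k = n / 2 + 1 := by omega
        rw [this]
        exact h
      · exact hdec k (by omega) (by omega) (hw k h3)
  · intro k h1 h2 h3
    obtain ⟨r, hr⟩ : ∃ r, r = n - k := ⟨_, rfl⟩
    have hk : k = n - r := by omega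
    have hrn : (r : ℝ) = (n : ℝ) - k := by
      rw [hr, Nat.cast_sub h2.le]
    have hm0r : m0 ≤ r := by
      by_contra hcon
      push Not at hcon
      have : r ^ 2 < m0 ^ 2 := Nat.pow_lt_pow_left hcon (by norm_num)
      rw [← hr] at h3
      omega
    have hch : n.choose (k - 1) = n.choose (r + 1) := by
      have e1 : r + 1 = n - (k - 1) := by omega
      rw [e1, Nat.choose_symm (by omega)]
    rw [← hr] at h3
    have hlow := hbd.low r (by omega)
    have hup := hbd.up r hm0r h3 (by omega)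
    rw [← hk] at hlow hup
    rw [hch, ← hrn]
    refine ⟨by exact_mod_cast hlow, hup.trans ?_⟩
    rw [mul_comm]
    apply mul_le_mul_of_nonneg_right _ (Nat.cast_nonneg _)
    have hr0 : (0 : ℝ) < r := by exact_mod_cast (by omega : 0 < r)
    have h4 : (n : ℝ) ≤ (r : ℝ) ^ 2 := by exact_mod_cast h3
    have h5 : er n r ≤ 308 / (r : ℝ) := by
      have h6 : 14 * (n : ℝ) / (r : ℝ) ^ 3 ≤ 14 / r := by
        rw [div_le_div_iff₀ (by positivity) hr0]
        nlinarith
      have h7 : 294 * (n : ℝ) ^ 2 / (r : ℝ) ^ 5 ≤ 294 / r := by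
        rw [div_le_div_iff₀ (by positivity) hr0]
        have h8 : (n : ℝ) ^ 2 ≤ ((r : ℝ) ^ 2) ^ 2 := pow_le_pow_left₀ (Nat.cast_nonneg _) h4 2
        nlinarith
      have h9 : (308 : ℝ) / r = 14 / r + 294 / r := by ring
      unfold er
      rw [h9]
      exact add_le_add h6 h7
    linarith

end Pool.Agent.Results.MP_7af81b_co.UnimodalRange
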